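import Mathlib

namespace Pool.Agent.Results.MP_4792b2_co.Bicotransversal

open Set

universe u

/-- `M` is transversal: its independent sets are the partial transversals of a finite family
`A 0, …, A (k-1)` of subsets of its ground set. -/
def Transversal {α : Type u} (M : Matroid α) : Prop :=
  ∃ (k : ℕ) (A : Fin k → Set α), (∀ i, A i ⊆ M.E) ∧
    ∀ I : Set α, M.Indep I ↔
      ∃ f : I → Fin k, Function.Injective f ∧ ∀ e : I, (e : α) ∈ A (f e)

/-- The relation `X ∼_U X'` on subsets of `U`. -/
def traceSetoid {α : Type u} (M : Matroid α) (U : Set α) : Setoid {X : Set α // X ⊆ U} where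
  r X X' := ∀ Z : Set α, Z ⊆ M.E \ U → (M.Indep (X.1 ∪ Z) ↔ M.Indep (X'.1 ∪ Z))
  iseqv :=
    { refl := fun _ _ _ => Iff.rfl
      symm := fun h Z hZ => (h Z hZ).symm
      trans := fun h h' Z hZ => (h Z hZ).trans (h' Z hZ) }

/-- A class `C` of (finite) matroids is strongly pigeonhole: for every positive `l` there is
a positive `p` such that, whenever `M` is in the class and `r(U) + r(E - U) - r(M) ≤ l`, the
relation `∼_U` has at most `p` classes. -/
def StronglyPigeonhole (C : ∀ α : Type u, Matroid α → Prop) : Prop :=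
  ∀ l : ℕ, 0 < l → ∃ p : ℕ, 0 < p ∧ ∀ (α : Type u) (M : Matroid α), M.Finite → C α M →
    ∀ U : Set α, U ⊆ M.E → M.eRk U + M.eRk (M.E \ U) ≤ M.eRank + l →
      Finite (Quotient (traceSetoid M U)) ∧ Nat.card (Quotient (traceSetoid M U)) ≤ p

section core

variable {α : Type u} [DecidableEq α]

/-- finset version of a presentation -/
def Pres (M : Matroid α) {k : ℕ} (A : Fin k → Finset α) : Prop :=
  ∀ I : Finset α, M.Indep (I : Set α) ↔
    ∃ f : {x // x ∈ I} → Fin k, Function.Injective f ∧ ∀ e : {x // x ∈ I}, (e : α) ∈ A (f e)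

/-- neighbourhood of a set of elements -/
def nb {k : ℕ} (A : Fin k → Finset α) (S : Finset α) : Finset (Fin k) :=
  Finset.univ.filter (fun y => ∃ e ∈ S, e ∈ A y)

lemma mem_nb {k : ℕ} {A : Fin k → Finset α} {S : Finset α} {y : Fin k} :
    y ∈ nb A S ↔ ∃ e ∈ S, e ∈ A y := by
  simp [nb]

/-- rank of a finset -/
noncomputable def rk (M : Matroid α) (S : Finset α) : ℕ := (M.eRk (S : Set α)).toNat

lemma coe_rk (M : Matroid α) (S : Finset α) : ((rk M S : ℕ) : ℕ∞) = M.eRk (S : Set α) := by
  unfold rk
  rw [ENat.natCast_toNat]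
  have h : M.eRk (S : Set α) ≤ (S : Set α).encard := M.eRk_le_encard _
  have h2 : (S : Set α).encard ≠ ⊤ := by
    rw [Set.encard_coe_eq_coe_finsetCard]
    exact ENat.natCast_ne_top _
  exact ne_top_of_le_ne_top h2 h

lemma exists_indep (M : Matroid α) (S : Finset α) :
    ∃ I : Finset α, I ⊆ S ∧ M.Indep (I : Set α) ∧ I.card = rk M S := by
  have h : (rk M S : ℕ∞) ≤ M.eRk (S : Set α) := (coe_rk M S).le
  rw [Matroid.le_eRk_iff] at h
  obtain ⟨I, hIS, hI, hc⟩ := h
  have hfin : I.Finite := S.finite_toSet.subset hIS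
  refine ⟨hfin.toFinset, ?_, ?_, ?_⟩
  · intro x hx
    have : x ∈ I := by simpa using hx
    exact_mod_cast hIS this
  · simpa using hI
  · have h3 : (hfin.toFinset.card : ℕ∞) = I.encard := by
      rw [hfin.encard_eq_coe_toFinset_card]
    rw [hc] at h3
    exact_mod_cast h3

lemma card_le_rk {M : Matroid α} {I S : Finset α} (hI : M.Indep (I : Set α)) (h : I ⊆ S) :
    I.card ≤ rk M S := by
  have h1 : (I : Set α).encard ≤ M.eRk (S : Set α) :=
    hI.encard_le_eRk_of_subset (by exact_mod_cast h)
  rw [Set.encard_coe_eq_coe_finsetCard, ← coe_rk] at h1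
  exact_mod_cast h1

lemma rk_le_card (M : Matroid α) (S : Finset α) : rk M S ≤ S.card := by
  obtain ⟨I, h1, _, h3⟩ := exists_indep M S
  rw [← h3]; exact Finset.card_le_card h1

lemma indep_iff_rk {M : Matroid α} {I : Finset α} :
    M.Indep (I : Set α) ↔ I.card ≤ rk M I := by
  constructor
  · intro h; exact card_le_rk h (Finset.Subset.refl _)
  · intro h
    obtain ⟨J, h1, h2, h3⟩ := exists_indep M I
    have : J = I := Finset.eq_of_subset_of_card_le h1 (by rw [h3]; exact h)
    rwa [this] at h2

lemma rk_mono (M : Matroid α) {S T : Finset α} (h : S ⊆ T) : rk M S ≤ rk M T := by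
  obtain ⟨I, h1, h2, h3⟩ := exists_indep M S
  rw [← h3]; exact card_le_rk h2 (h1.trans h)

lemma rk_submod (M : Matroid α) (S T : Finset α) :
    rk M (S ∩ T) + rk M (S ∪ T) ≤ rk M S + rk M T := by
  have h := M.eRk_inter_add_eRk_union_le (S : Set α) (T : Set α)
  rw [← Finset.coe_inter, ← Finset.coe_union, ← coe_rk, ← coe_rk, ← coe_rk, ← coe_rk] at h
  exact_mod_cast h

/-- easy half of König -/
lemma konig_easy {M : Matroid α} {k : ℕ} {A : Fin k → Finset α} (hA : Pres M A)
    (S S' : Finset α) : rk M S ≤ (S \ S').card + (nb A (S ∩ S')).card := by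
  obtain ⟨I, h1, h2, h3⟩ := exists_indep M S
  obtain ⟨f, hf, hf2⟩ := (hA I).1 h2
  have e1 : I.card = (I \ S').card + (I ∩ S').card := by
    rw [Finset.card_sdiff_add_card_inter]
  have e2 : (I \ S').card ≤ (S \ S').card :=
    Finset.card_le_card (Finset.sdiff_subset_sdiff h1 (Finset.Subset.refl _))
  have e3 : (I ∩ S').card ≤ (nb A (S ∩ S')).card := by
    rw [← Finset.card_attach]
    apply Finset.card_le_card_of_injOn
      (fun x => f ⟨x.1, (Finset.mem_inter.1 x.2).1⟩)
    · intro x _
      have hx := Finset.mem_inter.1 x.2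
      rw [Finset.mem_coe, mem_nb]
      exact ⟨x.1, Finset.mem_inter.2 ⟨h1 hx.1, hx.2⟩, hf2 ⟨x.1, hx.1⟩⟩
    · intro x _ x' _ h
      have := hf h
      simp only [Subtype.mk.injEq] at this
      exact Subtype.ext this
  omega

/-- hard half of König -/
lemma konig_hard {M : Matroid α} {k : ℕ} {A : Fin k → Finset α} (hA : Pres M A)
    (S : Finset α) : ∃ S' ⊆ S, (S \ S').card + (nb A S').card ≤ rk M S := by
  classical
  obtain ⟨S₁, hS₁, hmax⟩ := Finset.exists_max_image S.powerset
    (fun T => (T.card : ℤ) - ((nb A T).card : ℤ)) ⟨∅, by simp⟩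
  have hS₁' := Finset.mem_powerset.1 hS₁
  have h0 : (0 : ℤ) ≤ (S₁.card : ℤ) - ((nb A S₁).card : ℤ) := by
    have := hmax ∅ (by simp)
    have h2 : nb A (∅ : Finset α) = ∅ := by
      ext y; simp [mem_nb]
    rw [h2] at this
    simpa using this
  obtain ⟨d, hd⟩ := Int.eq_ofNat_of_zero_le h0
  refine ⟨S₁, hS₁', ?_⟩
  let t : {x // x ∈ S} → Finset (Fin k ⊕ Fin d) := fun x =>
    (Finset.univ.filter (fun y => (x : α) ∈ A y)).disjSum Finset.univ
  have hall : ∀ s : Finset {x // x ∈ S}, s.card ≤ (s.biUnion t).card := by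
    intro s
    rcases s.eq_empty_or_nonempty with rfl | hne
    · simp
    · have e1 : s.biUnion t = (nb A (s.map (Function.Embedding.subtype _))).disjSum Finset.univ := by
        ext z
        obtain ⟨x0, hx0⟩ := hne
        rcases z with y | i
        · simp only [Finset.mem_biUnion, t, Finset.inl_mem_disjSum, Finset.mem_filter,
            Finset.mem_univ, true_and, mem_nb, Finset.mem_map, Function.Embedding.subtype_apply]
          constructor
          · rintro ⟨x, hx, hxy⟩
            exact ⟨x.1, ⟨x, hx, rfl⟩, hxy⟩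
          · rintro ⟨e, ⟨x, hx, rfl⟩, hxy⟩
            exact ⟨x, hx, hxy⟩
        · simp only [Finset.mem_biUnion, t, Finset.inr_mem_disjSum, Finset.mem_univ, iff_true]
          exact ⟨x0, hx0, trivial⟩
      rw [e1, Finset.card_disjSum, Finset.card_univ, Fintype.card_fin]
      have h2 := hmax (s.map (Function.Embedding.subtype _)) (by
        rw [Finset.mem_powerset]
        intro x hx
        rw [Finset.mem_map] at hx
        obtain ⟨y, _, rfl⟩ := hx
        exact y.2)
      simp only [Finset.card_map] at h2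
      omega
  obtain ⟨f, hf, hf2⟩ := (Finset.all_card_le_biUnion_card_iff_exists_injective t).1 hall
  -- elements matched to genuine vertices
  let I : Finset α := (Finset.univ.filter (fun x : {x // x ∈ S} => (f x).isLeft)).map
    (Function.Embedding.subtype _)
  have hIS : I ⊆ S := by
    intro x hx
    simp only [I, Finset.mem_map] at hx
    obtain ⟨y, _, rfl⟩ := hx
    exact y.2
  have hmem : ∀ x : {x // x ∈ I}, (f ⟨x.1, hIS x.2⟩).isLeft = true := by
    rintro ⟨x, hx⟩
    have hx' := hx
    simp only [I, Finset.mem_map, Finset.mem_filter, Finset.mem_univ, true_and,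
      Function.Embedding.subtype_apply] at hx'
    obtain ⟨y, hy, hyx⟩ := hx'
    have : (⟨x, hIS hx⟩ : {x // x ∈ S}) = y := Subtype.ext hyx.symm
    rw [this]; exact hy
  have key : ∀ (z : Fin k ⊕ Fin d) (hz : z.isLeft = true) (x : {x // x ∈ S}), z ∈ t x →
      (x : α) ∈ A (z.getLeft hz) := by
    rintro (y | i) hz x hx
    · simpa [t] using hx
    · simp at hz
  have hI : M.Indep (I : Set α) := by
    rw [hA I]
    refine ⟨fun x => (f ⟨x.1, hIS x.2⟩).getLeft (hmem x), ?_, ?_⟩
    · intro x x' h
      have h1 : f ⟨x.1, hIS x.2⟩ = f ⟨x'.1, hIS x'.2⟩ := by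
        rw [← Sum.inl_getLeft _ (hmem x), ← Sum.inl_getLeft _ (hmem x')]
        exact congrArg Sum.inl h
      have h2 := hf h1
      simp only [Subtype.mk.injEq] at h2
      exact Subtype.ext h2
    · intro x
      exact key _ (hmem x) _ (hf2 ⟨x.1, hIS x.2⟩)
  have hcard : S.card ≤ I.card + d := by
    have h1 : (Finset.univ : Finset {x // x ∈ S}).card =
        (Finset.univ.filter (fun x : {x // x ∈ S} => (f x).isLeft = true)).card +
        (Finset.univ.filter (fun x : {x // x ∈ S} => ¬ (f x).isLeft = true)).card := by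
      rw [Finset.card_filter_add_card_filter_not]
    have h2 : (Finset.univ.filter (fun x : {x // x ∈ S} => ¬ (f x).isLeft = true)).card ≤ d := by
      have h3 : (Finset.univ.filter (fun x : {x // x ∈ S} => ¬ (f x).isLeft = true)).card ≤
          ((Finset.univ : Finset (Fin d)).map ⟨Sum.inr, Sum.inr_injective⟩ :
            Finset (Fin k ⊕ Fin d)).card := by
        apply Finset.card_le_card_of_injOn f
        · intro x hx
          have hx' : ¬ (f x).isLeft = true := by simpa using hx
          rcases hfx : f x with y | i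
          · rw [hfx] at hx'; simp at hx'
          · simp
        · exact hf.injOn
      simpa using h3
    have h4 : I.card = (Finset.univ.filter (fun x : {x // x ∈ S} => (f x).isLeft = true)).card := by
      simp only [I, Finset.card_map]
    have h5 : (Finset.univ : Finset {x // x ∈ S}).card = S.card := by simp
    omega
  have hfin := card_le_rk hI hIS
  have e5 : (S \ S₁).card + S₁.card = S.card := Finset.card_sdiff_add_card_eq_card hS₁'
  omega

lemma spanning_iff {M : Matroid α} {k : ℕ} {A : Fin k → Finset α} (hA : Pres M A)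
    (P : Finset α) (m : ℕ) : m ≤ rk M P ↔
      ∀ T : Finset (Fin k), m + T.card ≤ (P.filter (fun e => ∃ y ∈ T, e ∈ A y)).card + k := by
  constructor
  · intro hm T
    have h := konig_easy hA P (P.filter (fun e => ¬ ∃ y ∈ T, e ∈ A y))
    have h1 : P \ (P.filter (fun e => ¬ ∃ y ∈ T, e ∈ A y)) =
        P.filter (fun e => ∃ y ∈ T, e ∈ A y) := by
      ext e
      simp only [Finset.mem_sdiff, Finset.mem_filter]
      constructor
      · rintro ⟨h1, h2⟩
        refine ⟨h1, ?_⟩
        by_contra h3
        exact h2 ⟨h1, h3⟩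
      · rintro ⟨h1, h2⟩
        exact ⟨h1, fun h3 => h3.2 h2⟩
    have h2 : nb A (P ∩ (P.filter (fun e => ¬ ∃ y ∈ T, e ∈ A y))) ⊆ Finset.univ \ T := by
      intro y hy
      rw [mem_nb] at hy
      obtain ⟨e, he, hey⟩ := hy
      simp only [Finset.mem_inter, Finset.mem_filter] at he
      simp only [Finset.mem_sdiff, Finset.mem_univ, true_and]
      intro hyT
      exact he.2.2 ⟨y, hyT, hey⟩
    have h3 := Finset.card_le_card h2
    have h4 : (Finset.univ \ T).card + T.card = k := by
      have := Finset.card_sdiff_add_card_eq_card (Finset.subset_univ T)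
      simpa using this
    rw [h1] at h
    omega
  · intro h
    obtain ⟨S', hS', hk⟩ := konig_hard hA P
    have h1 := h (Finset.univ \ nb A S')
    have h2 : (Finset.univ \ nb A S').card + (nb A S').card = k := by
      have := Finset.card_sdiff_add_card_eq_card (Finset.subset_univ (nb A S'))
      simpa using this
    have h3 : (P.filter (fun e => ∃ y ∈ Finset.univ \ nb A S', e ∈ A y)).card ≤
        (P \ S').card := by
      apply Finset.card_le_card
      intro e he
      simp only [Finset.mem_filter, Finset.mem_sdiff, Finset.mem_univ, true_and] at he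
      obtain ⟨heP, y, hy, hey⟩ := he
      rw [Finset.mem_sdiff]
      refine ⟨heP, fun heS => hy ?_⟩
      rw [mem_nb]
      exact ⟨e, heS, hey⟩
    omega

/-- the window lemma -/
lemma window {X S Z S' : Type*} [Finite X] [Finite S] (a : X → S → ℤ) (b : Z → S' → ℤ)
    (c : ℤ) (l : ℕ) (h : ∀ x s z t, -(l : ℤ) ≤ a x s + b z t + c) :
    ∃ t : X → Fin (l + 1), ∀ x x', t x = t x' → ∀ z,
      ((∀ s u, 0 ≤ a x s + b z u + c) ↔ (∀ s u, 0 ≤ a x' s + b z u + c)) := by
  classical
  rcases isEmpty_or_nonempty X with hX | hX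
  · exact ⟨fun x => hX.elim x, fun x => hX.elim x⟩
  rcases isEmpty_or_nonempty S with hS | hS
  · refine ⟨fun _ => 0, fun x x' _ z => ?_⟩
    constructor <;> intro _ s <;> exact hS.elim s
  have hmin : ∀ x, ∃ s, ∀ s', a x s ≤ a x s' := fun x => Finite.exists_min (a x)
  choose σ hσ using hmin
  obtain ⟨x0, hx0⟩ := Finite.exists_min (fun x => a x (σ x))
  refine ⟨fun x => ⟨min l (a x (σ x) - a x0 (σ x0)).toNat, by omega⟩, ?_⟩
  have red : ∀ x z, (∀ s u, 0 ≤ a x s + b z u + c) ↔ (∀ u, 0 ≤ a x (σ x) + b z u + c) := by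
    intro x z
    constructor
    · intro h u; exact h _ u
    · intro h s u
      have := h u
      have := hσ x s
      omega
  intro x x' hxx z
  rw [red, red]
  have h1 : min l (a x (σ x) - a x0 (σ x0)).toNat = min l (a x' (σ x') - a x0 (σ x0)).toNat := by
    simpa using hxx
  have h2 := hx0 x
  have h3 := hx0 x'
  constructor
  · intro hu u
    have h4 := hu u
    have h5 := h x0 (σ x0) z u
    omega
  · intro hu u
    have h4 := hu u
    have h5 := h x0 (σ x0) z u
    omega

/-- the adjacency type of an element -/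
def ty {k : ℕ} (A : Fin k → Finset α) (e : α) : Finset (Fin k) :=
  Finset.univ.filter (fun y => e ∈ A y)

lemma mem_ty {k : ℕ} {A : Fin k → Finset α} {e : α} {y : Fin k} : y ∈ ty A e ↔ e ∈ A y := by
  simp [ty]

/-- The key combinatorial statement. -/
lemma core_bound (M N : Matroid α) (E : Finset α) {k : ℕ} (A : Fin k → Finset α)
    (hN : Pres N A)
    (hdual : ∀ X ⊆ E, rk M X + rk N E = rk N (E \ X) + X.card) (l q : ℕ)
    (htype : ∀ G ⊆ E, rk M G ≤ l → (G.image (ty A)).card ≤ q)
    (U V : Finset α) (hUV : U ∪ V = E) (hdisj : Disjoint U V)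
    (hconn : rk M U + rk M V ≤ rk M E + l) :
    ∃ (ι : Type) (_ : Fintype ι) (F : {X : Finset α // X ⊆ U} → ι),
      Fintype.card ι ≤ (l + 1) ^ (2 ^ (q + l)) + 1 ∧
      ∀ X X' : {X : Finset α // X ⊆ U}, F X = F X' →
        ∀ Z ⊆ V, (M.Indep ((X.1 ∪ Z : Finset α) : Set α) ↔
          M.Indep ((X'.1 ∪ Z : Finset α) : Set α)) := by
  classical
  set m := rk N E with hm
  have hUE : U ⊆ E := hUV ▸ Finset.subset_union_left
  have hVE : V ⊆ E := hUV ▸ Finset.subset_union_right
  have hEU : E \ U = V := by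
    rw [← hUV, Finset.union_sdiff_cancel_left hdisj]
  have hEV : E \ V = U := by
    rw [← hUV, Finset.union_sdiff_cancel_right hdisj]
  have hdU := hdual U hUE
  have hdV := hdual V hVE
  have hdE := hdual E (Finset.Subset.refl _)
  rw [hEU] at hdU
  rw [hEV] at hdV
  rw [Finset.sdiff_self] at hdE
  have hempty : rk N (∅ : Finset α) = 0 := by
    have := rk_le_card N (∅ : Finset α)
    simpa using this
  have hcardE : U.card + V.card = E.card := by
    rw [← hUV, Finset.card_union_of_disjoint hdisj]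
  have hconn' : rk N U + rk N V ≤ m + l := by omega
  obtain ⟨U', hU', hkU⟩ := konig_hard hN U
  obtain ⟨V', hV', hkV⟩ := konig_hard hN V
  have hU'V' : Disjoint U' V' := Finset.disjoint_of_subset_left hU'
    (Finset.disjoint_of_subset_right hV' hdisj)
  set G := (U \ U') ∪ (V \ V') with hG
  have hGE : G ⊆ E := by
    intro e he
    rw [hG, Finset.mem_union, Finset.mem_sdiff, Finset.mem_sdiff] at he
    rcases he with he | he
    · exact hUE he.1
    · exact hVE he.1
  have hEG : E \ G = U' ∪ V' := by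
    ext e
    simp only [hG, Finset.mem_sdiff, Finset.mem_union, ← hUV]
    constructor
    · rintro ⟨h1 | h1, h2⟩
      · by_cases h3 : e ∈ U'
        · exact Or.inl h3
        · exact absurd (Or.inl ⟨h1, h3⟩) h2
      · by_cases h3 : e ∈ V'
        · exact Or.inr h3
        · exact absurd (Or.inr ⟨h1, h3⟩) h2
    · rintro (h1 | h1)
      · refine ⟨Or.inl (hU' h1), ?_⟩
        rintro (h2 | h2)
        · exact h2.2 h1
        · exact Finset.disjoint_left.1 hdisj (hU' h1) h2.1
      · refine ⟨Or.inr (hV' h1), ?_⟩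
        rintro (h2 | h2)
        · exact Finset.disjoint_left.1 hdisj h2.1 (hV' h1)
        · exact h2.2 h1
  have hGc : G.card = (U \ U').card + (V \ V').card := by
    rw [hG, Finset.card_union_of_disjoint]
    exact Finset.disjoint_of_subset_left Finset.sdiff_subset
      (Finset.disjoint_of_subset_right Finset.sdiff_subset hdisj)
  set D := nb A U' ∩ nb A V' with hD
  have hnbU : (nb A U' ∪ nb A V').card + D.card = (nb A U').card + (nb A V').card := by
    rw [hD, Finset.card_union_add_card_inter]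
  have hnbUV : nb A (U' ∪ V') = nb A U' ∪ nb A V' := by
    ext y
    simp only [mem_nb, Finset.mem_union]
    constructor
    · rintro ⟨e, h1 | h1, h2⟩
      · exact Or.inl ⟨e, h1, h2⟩
      · exact Or.inr ⟨e, h1, h2⟩
    · rintro (⟨e, h1, h2⟩ | ⟨e, h1, h2⟩)
      · exact ⟨e, Or.inl h1, h2⟩
      · exact ⟨e, Or.inr h1, h2⟩
  -- D is small
  have hDl : D.card ≤ l := by
    have h1 := konig_easy hN E (U' ∪ V')
    have h2 : E ∩ (U' ∪ V') = U' ∪ V' := by
      rw [← hEG]; exact Finset.inter_eq_right.2 Finset.sdiff_subset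
    have h3 : E \ (U' ∪ V') = G := by
      rw [← hEG]; exact Finset.sdiff_sdiff_eq_self hGE
    rw [h2, h3, hnbUV] at h1
    omega
  -- G has small rank
  have hGl : rk M G ≤ l := by
    have h1 := hdual G hGE
    rw [hEG] at h1
    have h2 := konig_easy hN (U' ∪ V') (U' ∪ V')
    rw [Finset.sdiff_self, Finset.inter_self, hnbUV, Finset.card_empty] at h2
    omega
  have hq := htype G hGE hGl
  have hU'E : U' ⊆ E := hU'.trans hUE
  have hV'E : V' ⊆ E := hV'.trans hVE
  have hU'G : Disjoint U' G := by
    rw [Finset.disjoint_left]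
    intro e he heG
    have : e ∈ E \ G := by rw [hEG]; exact Finset.mem_union_left _ he
    exact (Finset.mem_sdiff.1 this).2 heG
  have hV'G : Disjoint V' G := by
    rw [Finset.disjoint_left]
    intro e he heG
    have : e ∈ E \ G := by rw [hEG]; exact Finset.mem_union_right _ he
    exact (Finset.mem_sdiff.1 this).2 heG
  have hcases : ∀ e ∈ E, e ∈ U' ∨ e ∈ V' ∨ e ∈ G := by
    intro e he
    by_cases h : e ∈ G
    · exact Or.inr (Or.inr h)
    · have : e ∈ E \ G := Finset.mem_sdiff.2 ⟨he, h⟩
      rw [hEG, Finset.mem_union] at this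
      tauto
  let H : Finset (Finset (Fin k)) → Finset α := fun T => G.filter (fun e => ty A e ∈ T)
  have hmemH : ∀ T e, e ∈ H T ↔ e ∈ G ∧ ty A e ∈ T := fun T e => Finset.mem_filter
  have hHG : ∀ T, H T ⊆ G := fun T => Finset.filter_subset _ _
  let 𝒯 : Finset (Finset (Finset (Fin k)) × Finset (Fin k)) :=
    (G.image (ty A)).powerset ×ˢ D.powerset
  let a : (p : Finset (Finset (Fin k)) × Finset (Fin k)) → Finset α → Finset (Fin k) → ℤ :=
    fun p X s => ((U'.filter (fun e => e ∉ X ∧ ∃ y ∈ s ∪ p.2, e ∈ A y)).card : ℤ) -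
      (s.card : ℤ) - ((H p.1 ∩ X).card : ℤ)
  let b : (p : Finset (Finset (Fin k)) × Finset (Fin k)) → Finset α → Finset (Fin k) → ℤ :=
    fun p Z s => ((V'.filter (fun e => e ∉ Z ∧ ∃ y ∈ s ∪ p.2, e ∈ A y)).card : ℤ) -
      (s.card : ℤ) - ((H p.1 ∩ Z).card : ℤ)
  let c : (p : Finset (Finset (Fin k)) × Finset (Fin k)) → ℤ :=
    fun p => ((H p.1).card : ℤ) - (p.2.card : ℤ) + (k : ℤ) - (m : ℤ)
  let PU : (p : Finset (Finset (Fin k)) × Finset (Fin k)) → Finset (Fin k) → Prop :=
    fun p s => Disjoint s (nb A V') ∧ ∀ e ∈ G, (∃ y ∈ s ∪ p.2, e ∈ A y) → ty A e ∈ p.1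
  let PV : (p : Finset (Finset (Fin k)) × Finset (Fin k)) → Finset (Fin k) → Prop :=
    fun p s => Disjoint s (nb A U') ∧ s ⊆ nb A V' ∧
      ∀ e ∈ G, (∃ y ∈ s ∪ p.2, e ∈ A y) → ty A e ∈ p.1
  -- cardinality of the union of the three pieces
  have hdisjU : ∀ p s u, p ∈ 𝒯 → PU p s → PV p u →
      ((s ∪ u ∪ p.2).card = s.card + u.card + p.2.card) := by
    intro p s u hp hs hu
    have hp2 : p.2 ⊆ D := by
      have := (Finset.mem_product.1 hp).2
      exact Finset.mem_powerset.1 this
    rw [Finset.card_union_of_disjoint, Finset.card_union_of_disjoint]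
    · exact Finset.disjoint_of_subset_right hu.2.1 hs.1
    · rw [Finset.disjoint_union_left]
      constructor
      · exact Finset.disjoint_of_subset_right (hp2.trans Finset.inter_subset_right) hs.1
      · exact Finset.disjoint_of_subset_right (hp2.trans Finset.inter_subset_left) hu.1
  -- the main equivalence
  have hmain : ∀ X Z : Finset α, X ⊆ U → Z ⊆ V →
      (M.Indep ((X ∪ Z : Finset α) : Set α) ↔
        ∀ p ∈ 𝒯, ∀ s u, PU p s → PV p u → 0 ≤ a p X s + b p Z u + c p) := by
    intro X Z hX hZ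
    have hXZ : Disjoint X Z := Finset.disjoint_of_subset_left hX
      (Finset.disjoint_of_subset_right hZ hdisj)
    have hXZE : X ∪ Z ⊆ E := Finset.union_subset (hX.trans hUE) (hZ.trans hVE)
    have h1 := hdual (X ∪ Z) hXZE
    have h2 : M.Indep ((X ∪ Z : Finset α) : Set α) ↔ m ≤ rk N (E \ (X ∪ Z)) := by
      rw [indep_iff_rk]
      have := rk_le_card M (X ∪ Z)
      constructor <;> intro h <;> omega
    rw [h2, spanning_iff hN]
    have hHc : ∀ T, (H T \ (X ∪ Z)).card + (H T ∩ X).card + (H T ∩ Z).card = (H T).card := by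
      intro T
      have e1 : (H T \ (X ∪ Z)).card + (H T ∩ (X ∪ Z)).card = (H T).card :=
        Finset.card_sdiff_add_card_inter _ _
      have e2 : (H T ∩ (X ∪ Z)).card = (H T ∩ X).card + (H T ∩ Z).card := by
        rw [Finset.inter_union_distrib_left, Finset.card_union_of_disjoint]
        exact Finset.disjoint_of_subset_left Finset.inter_subset_right
          (Finset.disjoint_of_subset_right Finset.inter_subset_right hXZ)
      omega
    constructor
    · intro h p hp s u hs hu
      have h3 := h (s ∪ u ∪ p.2)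
      rw [hdisjU p s u hp hs hu] at h3
      have hp2 : p.2 ⊆ D := Finset.mem_powerset.1 (Finset.mem_product.1 hp).2
      have h4 : ((E \ (X ∪ Z)).filter (fun e => ∃ y ∈ s ∪ u ∪ p.2, e ∈ A y)) ⊆
          (U'.filter (fun e => e ∉ X ∧ ∃ y ∈ s ∪ p.2, e ∈ A y)) ∪
          (V'.filter (fun e => e ∉ Z ∧ ∃ y ∈ u ∪ p.2, e ∈ A y)) ∪ (H p.1 \ (X ∪ Z)) := by
        intro e he
        simp only [Finset.mem_filter, Finset.mem_sdiff, Finset.mem_union] at he ⊢
        obtain ⟨⟨heE, heXZ⟩, y, hy, hey⟩ := he
        rcases hcases e heE with h5 | h5 | h5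
        · left; left
          refine ⟨h5, fun h6 => heXZ (Or.inl h6), y, ?_, hey⟩
          rcases hy with (hy | hy) | hy
          · exact Or.inl hy
          · exact absurd (mem_nb.2 ⟨e, h5, hey⟩) (Finset.disjoint_left.1 hu.1 hy)
          · exact Or.inr hy
        · left; right
          refine ⟨h5, fun h6 => heXZ (Or.inr h6), y, ?_, hey⟩
          rcases hy with (hy | hy) | hy
          · exact absurd (mem_nb.2 ⟨e, h5, hey⟩) (Finset.disjoint_left.1 hs.1 hy)
          · exact Or.inl hy
          · exact Or.inr hy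
        · right
          rw [hmemH]
          refine ⟨⟨h5, ?_⟩, heXZ⟩
          rcases hy with (hy | hy) | hy
          · exact hs.2 e h5 ⟨y, Finset.mem_union_left _ hy, hey⟩
          · exact hu.2.2 e h5 ⟨y, Finset.mem_union_left _ hy, hey⟩
          · exact hs.2 e h5 ⟨y, Finset.mem_union_right _ hy, hey⟩
      have h5 := Finset.card_le_card h4
      have h6 := Finset.card_union_le
        ((U'.filter (fun e => e ∉ X ∧ ∃ y ∈ s ∪ p.2, e ∈ A y)) ∪
          (V'.filter (fun e => e ∉ Z ∧ ∃ y ∈ u ∪ p.2, e ∈ A y))) (H p.1 \ (X ∪ Z))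
      have h7 := Finset.card_union_le
        (U'.filter (fun e => e ∉ X ∧ ∃ y ∈ s ∪ p.2, e ∈ A y))
          (V'.filter (fun e => e ∉ Z ∧ ∃ y ∈ u ∪ p.2, e ∈ A y))
      have h8 := hHc p.1
      simp only [a, b, c]
      omega
    · intro h 𝒮
      let K := 𝒮 ∩ D
      let T := (G.filter (fun e => ∃ y ∈ 𝒮, e ∈ A y)).image (ty A)
      let s := 𝒮 \ nb A V'
      let u := (𝒮 ∩ nb A V') \ nb A U'
      have hp : (T, K) ∈ 𝒯 := by
        rw [Finset.mem_product]
        constructor
        · rw [Finset.mem_powerset]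
          exact Finset.image_subset_image (Finset.filter_subset _ _)
        · rw [Finset.mem_powerset]; exact Finset.inter_subset_right
      have hsS : s ⊆ 𝒮 := Finset.sdiff_subset
      have huS : u ⊆ 𝒮 := Finset.sdiff_subset.trans Finset.inter_subset_left
      have hKS : K ⊆ 𝒮 := Finset.inter_subset_left
      have hHT : H T = G.filter (fun e => ∃ y ∈ 𝒮, e ∈ A y) := by
        ext e
        rw [hmemH, Finset.mem_filter]
        refine and_congr_right (fun heG => ?_)
        simp only [T, Finset.mem_image, Finset.mem_filter]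
        constructor
        · rintro ⟨f, ⟨_, y, hy, hfy⟩, hef⟩
          refine ⟨y, hy, ?_⟩
          rw [← mem_ty, ← hef, mem_ty]; exact hfy
        · rintro ⟨y, hy, hey⟩
          exact ⟨e, ⟨heG, y, hy, hey⟩, rfl⟩
      have hcov : ∀ e ∈ G, ∀ W : Finset (Fin k), W ⊆ 𝒮 → (∃ y ∈ W, e ∈ A y) → ty A e ∈ T := by
        intro e he W hW hy
        obtain ⟨y, hy, hey⟩ := hy
        have : e ∈ H T := by
          rw [hHT, Finset.mem_filter]
          exact ⟨he, y, hW hy, hey⟩
        exact ((hmemH _ _).1 this).2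
      have hs : PU (T, K) s := by
        refine ⟨Finset.sdiff_disjoint, fun e he hy => ?_⟩
        exact hcov e he _ (Finset.union_subset hsS hKS) hy
      have hu : PV (T, K) u := by
        refine ⟨Finset.sdiff_disjoint, Finset.sdiff_subset.trans Finset.inter_subset_right,
          fun e he hy => ?_⟩
        exact hcov e he _ (Finset.union_subset huS hKS) hy
      have h3 := h (T, K) hp s u hs hu
      have h4 := hdisjU (T, K) s u hp hs hu
      have h5 : s ∪ u ∪ K = 𝒮 := by
        ext y
        simp only [s, u, K, hD, Finset.mem_union, Finset.mem_sdiff, Finset.mem_inter]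
        by_cases g1 : y ∈ nb A V' <;> by_cases g2 : y ∈ nb A U' <;> simp [g1, g2]
      simp only at h4
      rw [h5] at h4
      have h6 : (U'.filter (fun e => e ∉ X ∧ ∃ y ∈ s ∪ K, e ∈ A y)) ∪
          (V'.filter (fun e => e ∉ Z ∧ ∃ y ∈ u ∪ K, e ∈ A y)) ∪ (H T \ (X ∪ Z)) ⊆
          ((E \ (X ∪ Z)).filter (fun e => ∃ y ∈ 𝒮, e ∈ A y)) := by
        intro e he
        simp only [Finset.mem_filter, Finset.mem_sdiff, Finset.mem_union] at he ⊢
        rcases he with (⟨g1, g2, y, g3, g4⟩ | ⟨g1, g2, y, g3, g4⟩) | ⟨g1, g2⟩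
        · refine ⟨⟨hU'E g1, ?_⟩, y, ?_, g4⟩
          · rintro (g5 | g5)
            · exact g2 g5
            · exact Finset.disjoint_left.1 hdisj (hU' g1) (hZ g5)
          · rcases g3 with g3 | g3
            · exact hsS g3
            · exact hKS g3
        · refine ⟨⟨hV'E g1, ?_⟩, y, ?_, g4⟩
          · rintro (g5 | g5)
            · exact Finset.disjoint_left.1 hdisj (hX g5) (hV' g1)
            · exact g2 g5
          · rcases g3 with g3 | g3
            · exact huS g3
            · exact hKS g3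
        · rw [hHT, Finset.mem_filter] at g1
          exact ⟨⟨hGE g1.1, g2⟩, g1.2⟩
      have h7 := Finset.card_le_card h6
      rw [Finset.card_union_of_disjoint, Finset.card_union_of_disjoint] at h7
      · have h8 := hHc T
        simp only [a, b, c] at h3
        omega
      · exact Finset.disjoint_of_subset_left (Finset.filter_subset _ _)
          (Finset.disjoint_of_subset_right (Finset.filter_subset _ _) hU'V')
      · rw [Finset.disjoint_union_left]
        constructor
        · exact Finset.disjoint_of_subset_left (Finset.filter_subset _ _)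
            (Finset.disjoint_of_subset_right (Finset.sdiff_subset.trans (hHG T)) hU'G)
        · exact Finset.disjoint_of_subset_left (Finset.filter_subset _ _)
            (Finset.disjoint_of_subset_right (Finset.sdiff_subset.trans (hHG T)) hV'G)
  -- the window bound
  have hwin : ∀ p ∈ 𝒯, ∀ X Z : Finset α, X ⊆ U → Z ⊆ V → M.Indep (X : Set α) →
      M.Indep (Z : Set α) → ∀ s u, PU p s → PV p u →
        -(l : ℤ) ≤ a p X s + b p Z u + c p := by
    intro p hp X Z hX hZ hXi hZi s u hs hu
    let JU := U'.filter (fun e => ∃ y ∈ s ∪ p.2, e ∈ A y)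
    let JV := V'.filter (fun e => ∃ y ∈ u ∪ p.2, e ∈ A y)
    let J := JU ∪ JV ∪ H p.1
    have hJUU' : JU ⊆ U' := Finset.filter_subset _ _
    have hJVV' : JV ⊆ V' := Finset.filter_subset _ _
    have hJE : J ⊆ E := Finset.union_subset (Finset.union_subset (hJUU'.trans hU'E)
      (hJVV'.trans hV'E)) ((hHG _).trans hGE)
    have g1 : J.card = JU.card + JV.card + (H p.1).card := by
      simp only [J]
      rw [Finset.card_union_of_disjoint, Finset.card_union_of_disjoint]
      · exact Finset.disjoint_of_subset_left hJUU' (Finset.disjoint_of_subset_right hJVV' hU'V')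
      · rw [Finset.disjoint_union_left]
        exact ⟨Finset.disjoint_of_subset_left hJUU'
          (Finset.disjoint_of_subset_right (hHG _) hU'G),
          Finset.disjoint_of_subset_left hJVV'
          (Finset.disjoint_of_subset_right (hHG _) hV'G)⟩
    have g2 : (U'.filter (fun e => e ∉ X ∧ ∃ y ∈ s ∪ p.2, e ∈ A y)).card + (JU ∩ X).card
        = JU.card := by
      have : U'.filter (fun e => e ∉ X ∧ ∃ y ∈ s ∪ p.2, e ∈ A y) = JU \ X := by
        ext e
        simp only [JU, Finset.mem_filter, Finset.mem_sdiff]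
        constructor
        · rintro ⟨h1, h2, h3⟩; exact ⟨⟨h1, h3⟩, h2⟩
        · rintro ⟨⟨h1, h3⟩, h2⟩; exact ⟨h1, h2, h3⟩
      rw [this, Finset.card_sdiff_add_card_inter]
    have g3 : (V'.filter (fun e => e ∉ Z ∧ ∃ y ∈ u ∪ p.2, e ∈ A y)).card + (JV ∩ Z).card
        = JV.card := by
      have : V'.filter (fun e => e ∉ Z ∧ ∃ y ∈ u ∪ p.2, e ∈ A y) = JV \ Z := by
        ext e
        simp only [JV, Finset.mem_filter, Finset.mem_sdiff]
        constructor
        · rintro ⟨h1, h2, h3⟩; exact ⟨⟨h1, h3⟩, h2⟩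
        · rintro ⟨⟨h1, h3⟩, h2⟩; exact ⟨h1, h2, h3⟩
      rw [this, Finset.card_sdiff_add_card_inter]
    have g4 : (JU ∩ X).card + (H p.1 ∩ X).card ≤ rk M (U ∩ J) := by
      have e1 : ((JU ∩ X) ∪ (H p.1 ∩ X)).card = (JU ∩ X).card + (H p.1 ∩ X).card := by
        rw [Finset.card_union_of_disjoint]
        exact Finset.disjoint_of_subset_left (Finset.inter_subset_left.trans hJUU')
          (Finset.disjoint_of_subset_right (Finset.inter_subset_left.trans (hHG _)) hU'G)
      rw [← e1]
      apply card_le_rk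
      · apply hXi.subset
        rw [Finset.coe_subset]
        exact Finset.union_subset Finset.inter_subset_right Finset.inter_subset_right
      · intro e he
        simp only [Finset.mem_union, Finset.mem_inter] at he
        rw [Finset.mem_inter]
        rcases he with he | he
        · exact ⟨hX he.2, Finset.mem_union_left _ (Finset.mem_union_left _ he.1)⟩
        · exact ⟨hX he.2, Finset.mem_union_right _ he.1⟩
    have g5 : (JV ∩ Z).card + (H p.1 ∩ Z).card ≤ rk M (V ∩ J) := by
      have e1 : ((JV ∩ Z) ∪ (H p.1 ∩ Z)).card = (JV ∩ Z).card + (H p.1 ∩ Z).card := by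
        rw [Finset.card_union_of_disjoint]
        exact Finset.disjoint_of_subset_left (Finset.inter_subset_left.trans hJVV')
          (Finset.disjoint_of_subset_right (Finset.inter_subset_left.trans (hHG _)) hV'G)
      rw [← e1]
      apply card_le_rk
      · apply hZi.subset
        rw [Finset.coe_subset]
        exact Finset.union_subset Finset.inter_subset_right Finset.inter_subset_right
      · intro e he
        simp only [Finset.mem_union, Finset.mem_inter] at he
        rw [Finset.mem_inter]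
        rcases he with he | he
        · exact ⟨hZ he.2, Finset.mem_union_left _ (Finset.mem_union_right _ he.1)⟩
        · exact ⟨hZ he.2, Finset.mem_union_right _ he.1⟩
    have g6 := rk_submod M U J
    have g7 := rk_submod M V (U ∪ J)
    have g8 : V ∩ (U ∪ J) = V ∩ J := by
      ext e
      simp only [Finset.mem_inter, Finset.mem_union]
      constructor
      · rintro ⟨h1, h2 | h2⟩
        · exact absurd h1 (Finset.disjoint_left.1 hdisj h2)
        · exact ⟨h1, h2⟩
      · rintro ⟨h1, h2⟩; exact ⟨h1, Or.inr h2⟩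
    have g9 : V ∪ (U ∪ J) = E := by
      rw [← Finset.union_assoc, Finset.union_comm V U, hUV, Finset.union_eq_left]
      exact hJE
    rw [g8, g9] at g7
    have g10 := hdual J hJE
    have g11 := konig_easy hN (E \ J) (E \ J)
    rw [Finset.sdiff_self, Finset.inter_self, Finset.card_empty] at g11
    have g12 : nb A (E \ J) ⊆ Finset.univ \ (s ∪ u ∪ p.2) := by
      intro y hy
      rw [mem_nb] at hy
      obtain ⟨e, he, hey⟩ := hy
      rw [Finset.mem_sdiff] at he ⊢
      refine ⟨Finset.mem_univ _, fun hyS => he.2 ?_⟩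
      simp only [Finset.mem_union] at hyS
      rcases hcases e he.1 with h5 | h5 | h5
      · refine Finset.mem_union_left _ (Finset.mem_union_left _ ?_)
        simp only [JU, Finset.mem_filter]
        refine ⟨h5, y, ?_, hey⟩
        rw [Finset.mem_union]
        rcases hyS with (hy | hy) | hy
        · exact Or.inl hy
        · exact absurd (mem_nb.2 ⟨e, h5, hey⟩) (Finset.disjoint_left.1 hu.1 hy)
        · exact Or.inr hy
      · refine Finset.mem_union_left _ (Finset.mem_union_right _ ?_)
        simp only [JV, Finset.mem_filter]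
        refine ⟨h5, y, ?_, hey⟩
        rw [Finset.mem_union]
        rcases hyS with (hy | hy) | hy
        · exact absurd (mem_nb.2 ⟨e, h5, hey⟩) (Finset.disjoint_left.1 hs.1 hy)
        · exact Or.inl hy
        · exact Or.inr hy
      · refine Finset.mem_union_right _ ?_
        rw [hmemH]
        refine ⟨h5, ?_⟩
        rcases hyS with (hy | hy) | hy
        · exact hs.2 e h5 ⟨y, Finset.mem_union_left _ hy, hey⟩
        · exact hu.2.2 e h5 ⟨y, Finset.mem_union_left _ hy, hey⟩
        · exact hs.2 e h5 ⟨y, Finset.mem_union_right _ hy, hey⟩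
    have g13 := Finset.card_le_card g12
    have g14 : (Finset.univ \ (s ∪ u ∪ p.2)).card + (s ∪ u ∪ p.2).card = k := by
      have := Finset.card_sdiff_add_card_eq_card (Finset.subset_univ (s ∪ u ∪ p.2))
      simpa using this
    rw [hdisjU p s u hp hs hu] at g14
    simp only [a, b, c]
    omega
  -- classification
  have hfX : Finite {X : Finset α // X ⊆ U ∧ M.Indep (X : Set α)} :=
    Finite.of_injective (β := {X : Finset α // X ∈ U.powerset})
      (fun X => ⟨X.1, Finset.mem_powerset.2 X.2.1⟩)
      (fun X Y h => Subtype.ext (by simpa using h))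
  have hw : ∀ p : {p // p ∈ 𝒯}, ∃ t : {X : Finset α // X ⊆ U ∧ M.Indep (X : Set α)} → Fin (l + 1),
      ∀ x x', t x = t x' → ∀ z : {Z : Finset α // Z ⊆ V ∧ M.Indep (Z : Set α)},
        ((∀ (s : {s // PU p.1 s}) (u : {u // PV p.1 u}), 0 ≤ a p.1 x.1 s.1 + b p.1 z.1 u.1 + c p.1) ↔
        (∀ (s : {s // PU p.1 s}) (u : {u // PV p.1 u}),
          0 ≤ a p.1 x'.1 s.1 + b p.1 z.1 u.1 + c p.1)) := by
    intro p
    exact window (fun (x : {X : Finset α // X ⊆ U ∧ M.Indep (X : Set α)})
        (s : {s // PU p.1 s}) => a p.1 x.1 s.1)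
      (fun (z : {Z : Finset α // Z ⊆ V ∧ M.Indep (Z : Set α)}) (u : {u // PV p.1 u}) =>
        b p.1 z.1 u.1) (c p.1) l
      (fun x s z u => hwin p.1 p.2 x.1 z.1 x.2.1 z.2.1 x.2.2 z.2.2 s.1 u.1 s.2 u.2)
  choose t ht using hw
  refine ⟨Option ({p // p ∈ 𝒯} → Fin (l + 1)), inferInstance,
    fun X => if h : M.Indep (X.1 : Set α) then some (fun p => t p ⟨X.1, X.2, h⟩) else none,
    ?_, ?_⟩
  · rw [Fintype.card_option, Fintype.card_fun, Fintype.card_fin, Fintype.card_coe]
    have h1 : 𝒯.card ≤ 2 ^ (q + l) := by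
      rw [Finset.card_product, Finset.card_powerset, Finset.card_powerset, ← pow_add]
      exact Nat.pow_le_pow_right (by norm_num) (by omega)
    have := Nat.pow_le_pow_right (show 0 < l + 1 by omega) h1
    omega
  · intro X X' hXX Z hZ
    have hsubl : ∀ W : Finset α, M.Indep ((W ∪ Z : Finset α) : Set α) → M.Indep (W : Set α) :=
      fun W h => h.subset (by rw [Finset.coe_subset]; exact Finset.subset_union_left)
    have hsubr : ∀ W : Finset α, M.Indep ((W ∪ Z : Finset α) : Set α) → M.Indep (Z : Set α) :=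
      fun W h => h.subset (by rw [Finset.coe_subset]; exact Finset.subset_union_right)
    by_cases hX : M.Indep (X.1 : Set α)
    · by_cases hX' : M.Indep (X'.1 : Set α)
      · by_cases hZi : M.Indep (Z : Set α)
        · rw [hmain X.1 Z X.2 hZ, hmain X'.1 Z X'.2 hZ]
          simp only [dif_pos hX, dif_pos hX', Option.some.injEq] at hXX
          refine forall_congr' (fun p => forall_congr' (fun hp => ?_))
          have h1 := ht ⟨p, hp⟩ ⟨X.1, X.2, hX⟩ ⟨X'.1, X'.2, hX'⟩ (congrFun hXX ⟨p, hp⟩)
            ⟨Z, hZ, hZi⟩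
          constructor
          · intro h s u hs hu
            exact h1.1 (fun s u => h s.1 u.1 s.2 u.2) ⟨s, hs⟩ ⟨u, hu⟩
          · intro h s u hs hu
            exact h1.2 (fun s u => h s.1 u.1 s.2 u.2) ⟨s, hs⟩ ⟨u, hu⟩
        · exact ⟨fun h => absurd (hsubr _ h) hZi, fun h => absurd (hsubr _ h) hZi⟩
      · simp only [dif_pos hX, dif_neg hX'] at hXX
        exact absurd hXX (by simp)
    · by_cases hX' : M.Indep (X'.1 : Set α)
      · simp only [dif_pos hX', dif_neg hX] at hXX
        exact absurd hXX (by simp)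
      · exact ⟨fun h => absurd (hsubl _ h) hX, fun h => absurd (hsubl _ h) hX'⟩

/-- matchings via total functions -/
lemma match_iff {k : ℕ} (A : Fin k → Finset α) (I : Finset α) :
    (∃ f : {x // x ∈ I} → Fin k, Function.Injective f ∧ ∀ e : {x // x ∈ I}, (e : α) ∈ A (f e)) ↔
    ∃ g : α → Option (Fin k), (∀ x ∈ I, ∀ x' ∈ I, g x = g x' → x = x') ∧
      ∀ x ∈ I, ∃ y, g x = some y ∧ x ∈ A y := by
  constructor
  · rintro ⟨f, hf, hf2⟩
    refine ⟨fun x => if h : x ∈ I then some (f ⟨x, h⟩) else none, ?_, ?_⟩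
    · intro x hx x' hx' h
      simp only [dif_pos hx, dif_pos hx', Option.some.injEq] at h
      have := hf h
      simpa using this
    · intro x hx
      exact ⟨f ⟨x, hx⟩, by simp only [dif_pos hx], hf2 ⟨x, hx⟩⟩
  · rintro ⟨g, hg, hg2⟩
    choose y hy hy2 using hg2
    refine ⟨fun x => y x.1 x.2, ?_, fun e => hy2 _ _⟩
    intro x x' h
    apply Subtype.ext
    apply hg x.1 x.2 x'.1 x'.2
    rw [hy x.1 x.2, hy x'.1 x'.2]
    exact congrArg some h

lemma pres_iff {M : Matroid α} {k : ℕ} {A : Fin k → Finset α} (hA : Pres M A) (I : Finset α) :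
    M.Indep (I : Set α) ↔ ∃ g : α → Option (Fin k),
      (∀ x ∈ I, ∀ x' ∈ I, g x = g x' → x = x') ∧ ∀ x ∈ I, ∃ y, g x = some y ∧ x ∈ A y :=
  (hA I).trans (match_iff A I)

lemma card_le_nb {M : Matroid α} {k : ℕ} {A : Fin k → Finset α} (hA : Pres M A) {I : Finset α}
    (hI : M.Indep (I : Set α)) : I.card ≤ (nb A I).card := by
  have h1 := konig_easy hA I I
  rw [Finset.sdiff_self, Finset.inter_self, Finset.card_empty] at h1
  have h2 := indep_iff_rk.1 hI
  omega

/-- enlarging a presentation -/
lemma pres_update {N : Matroid α} {k : ℕ} {A : Fin k → Finset α} (hA : Pres N A)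
    (hAE : ∀ y, (A y : Set α) ⊆ N.E) (y : Fin k) (f : α) (hf : f ∈ N.E)
    (hC : ∀ C : Finset α, N.IsCircuit (C : Set α) → f ∈ C → ¬ Disjoint C (A y)) :
    Pres N (Function.update A y (insert f (A y))) := by
  intro I
  rw [match_iff]
  constructor
  · intro hI
    obtain ⟨g, hg, hg2⟩ := (pres_iff hA I).1 hI
    refine ⟨g, hg, fun x hx => ?_⟩
    obtain ⟨z, hz, hxz⟩ := hg2 x hx
    refine ⟨z, hz, ?_⟩
    by_cases hzy : z = y
    · subst hzy
      rw [Function.update_self]
      exact Finset.mem_insert_of_mem hxz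
    · rw [Function.update_of_ne hzy]; exact hxz
  · rintro ⟨g, hg, hg2⟩
    by_contra hI
    have hIE : (I : Set α) ⊆ N.E := by
      intro x hx
      obtain ⟨z, hz, hxz⟩ := hg2 x hx
      by_cases hzy : z = y
      · subst hzy
        rw [Function.update_self, Finset.mem_insert] at hxz
        rcases hxz with rfl | hxz
        · exact hf
        · exact hAE _ hxz
      · rw [Function.update_of_ne hzy] at hxz; exact hAE _ hxz
    obtain ⟨C0, hC0I, hC0⟩ := ((Matroid.not_indep_iff hIE).1 hI).exists_isCircuit_subset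
    have hfin : C0.Finite := I.finite_toSet.subset hC0I
    obtain ⟨C, rfl⟩ : ∃ C : Finset α, (C : Set α) = C0 := ⟨hfin.toFinset, hfin.coe_toFinset⟩
    have hCI : C ⊆ I := by exact_mod_cast hC0I
    have hdep : ¬ N.Indep (C : Set α) := hC0.dep.not_indep
    have hother : ∀ x ∈ C, x ≠ f → ∃ z, g x = some z ∧ x ∈ A z := by
      intro x hx hxf
      obtain ⟨z, hz, hxz⟩ := hg2 x (hCI hx)
      refine ⟨z, hz, ?_⟩
      by_cases hzy : z = y
      · subst hzy
        rw [Function.update_self, Finset.mem_insert] at hxz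
        rcases hxz with h | h
        · exact absurd h hxf
        · exact h
      · rwa [Function.update_of_ne hzy] at hxz
    have hfC : f ∈ C := by
      by_contra hfC
      apply hdep
      rw [pres_iff hA]
      exact ⟨g, fun x hx x' hx' => hg x (hCI hx) x' (hCI hx'),
        fun x hx => hother x hx (fun h => hfC (h ▸ hx))⟩
    have hgf : g f = some y := by
      obtain ⟨z, hz, hfz⟩ := hg2 f (hCI hfC)
      by_cases hzy : z = y
      · rw [hz, hzy]
      · exfalso
        rw [Function.update_of_ne hzy] at hfz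
        apply hdep
        rw [pres_iff hA]
        refine ⟨g, fun x hx x' hx' => hg x (hCI hx) x' (hCI hx'), fun x hx => ?_⟩
        by_cases hxf : x = f
        · subst hxf; exact ⟨z, hz, hfz⟩
        · exact hother x hx hxf
    have hnd := hC C hC0 hfC
    rw [Finset.not_disjoint_iff] at hnd
    obtain ⟨a, haC, haA⟩ := hnd
    obtain ⟨S', hS', hk⟩ := konig_hard hA C
    have hlt : rk N C < C.card := by
      by_contra h
      exact hdep (indep_iff_rk.2 (by omega))
    have e1 : (C \ S').card + S'.card = C.card := Finset.card_sdiff_add_card_eq_card hS'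
    have hS'dep : ¬ N.Indep (S' : Set α) := by
      intro h
      have := card_le_nb hA h
      omega
    have hS'C : S' = C := by
      by_contra hne
      apply hS'dep
      apply hC0.ssubset_indep
      rw [Finset.coe_ssubset]
      exact Finset.ssubset_iff_subset_ne.2 ⟨hS', hne⟩
    subst hS'C
    have hy : y ∈ nb A S' := mem_nb.2 ⟨a, haC, haA⟩
    have e2 : (S'.erase f).card ≤ ((nb A S').erase y).card := by
      have h1 : ∀ x ∈ S'.erase f, ∃ z, g x = some z ∧ x ∈ A z := fun x hx =>
        hother x (Finset.mem_of_mem_erase hx) (Finset.ne_of_mem_erase hx)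
      have : Nonempty (Fin k) := ⟨y⟩
      choose! z hz hz2 using h1
      apply Finset.card_le_card_of_injOn z
      · intro x hx
        rw [Finset.mem_coe] at hx ⊢
        rw [Finset.mem_erase]
        refine ⟨?_, mem_nb.2 ⟨x, Finset.mem_of_mem_erase hx, hz2 x hx⟩⟩
        intro h
        have h3 := hz x hx
        rw [h, ← hgf] at h3
        exact Finset.ne_of_mem_erase hx
          (hg x (hCI (Finset.mem_of_mem_erase hx)) f (hCI hfC) h3)
      · intro x hx x' hx' h
        rw [Finset.mem_coe] at hx hx'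
        apply hg x (hCI (Finset.mem_of_mem_erase hx)) x' (hCI (Finset.mem_of_mem_erase hx'))
        rw [hz x hx, hz x' hx', h]
    rw [Finset.card_erase_of_mem hfC, Finset.card_erase_of_mem hy] at e2
    have e3 : 0 < S'.card := Finset.card_pos.2 ⟨f, hfC⟩
    have e4 : 0 < (nb A S').card := Finset.card_pos.2 ⟨y, hy⟩
    have e5 : (S' \ S').card = 0 := by simp
    omega

/-- maximal presentations -/
lemma exists_max_pres {N : Matroid α} (E : Finset α) (hE : (E : Set α) = N.E) {k : ℕ}
    {A : Fin k → Finset α} (hA : Pres N A) (hAE : ∀ y, A y ⊆ E) :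
    ∃ A' : Fin k → Finset α, Pres N A' ∧ (∀ y, A' y ⊆ E) ∧
      ∀ y, ∀ f ∈ E, f ∉ A' y → ∃ C : Finset α, N.IsCircuit (C : Set α) ∧ f ∈ C ∧
        Disjoint C (A' y) := by
  classical
  obtain ⟨A', hA', hmax⟩ := Finset.exists_max_image
    ((Fintype.piFinset (fun _ : Fin k => E.powerset)).filter (fun A => Pres N A))
    (fun A => ∑ y, (A y).card)
    ⟨A, by
      rw [Finset.mem_filter, Fintype.mem_piFinset]
      exact ⟨fun y => Finset.mem_powerset.2 (hAE y), hA⟩⟩
  rw [Finset.mem_filter, Fintype.mem_piFinset] at hA'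
  have hA'E : ∀ y, A' y ⊆ E := fun y => Finset.mem_powerset.1 (hA'.1 y)
  refine ⟨A', hA'.2, hA'E, ?_⟩
  intro y f hf hfy
  by_contra hno
  push Not at hno
  have h1 := pres_update hA'.2 (fun z => by rw [← hE, Finset.coe_subset]; exact hA'E z) y f
    (by rw [← hE]; exact hf) (fun C h1 h2 => hno C h1 h2)
  have h2 := hmax (Function.update A' y (insert f (A' y))) (by
    rw [Finset.mem_filter, Fintype.mem_piFinset]
    refine ⟨fun z => ?_, h1⟩
    rw [Finset.mem_powerset]
    by_cases hz : z = y
    · subst hz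
      rw [Function.update_self]
      exact Finset.insert_subset hf (hA'E _)
    · rw [Function.update_of_ne hz]; exact hA'E z)
  have h3 : ∑ z, (A' z).card < ∑ z, (Function.update A' y (insert f (A' y)) z).card := by
    apply Finset.sum_lt_sum
    · intro z _
      by_cases hz : z = y
      · subst hz
        rw [Function.update_self]
        exact Finset.card_le_card (Finset.subset_insert _ _)
      · rw [Function.update_of_ne hz]
    · refine ⟨y, Finset.mem_univ _, ?_⟩
      rw [Function.update_self, Finset.card_insert_of_notMem hfy]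
      omega
  omega

/-- exchanging an element for another one preserves matchability, if the new element sees the
vertex used by the old one -/
lemma indep_swap {M : Matroid α} {k : ℕ} {B : Fin k → Finset α} (hB : Pres M B)
    {I : Finset α} {e f : α} (hf : f ∈ I) (he : e ∉ I) (hI : M.Indep (I : Set α))
    (hty : ∀ w, f ∈ B w → e ∈ B w) : M.Indep ((insert e (I.erase f) : Finset α) : Set α) := by
  classical
  obtain ⟨g, hg, hg2⟩ := (pres_iff hB I).1 hI
  rw [pres_iff hB]
  have hg' : ∀ x ∈ I, x ≠ e := fun x hx h => he (h ▸ hx)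
  refine ⟨Function.update g e (g f), ?_, ?_⟩
  · intro x hx x' hx' h
    rw [Finset.mem_insert, Finset.mem_erase] at hx hx'
    rcases hx with rfl | ⟨hxf, hx⟩
    · rcases hx' with rfl | ⟨hxf', hx'⟩
      · rfl
      · rw [Function.update_self, Function.update_of_ne (hg' x' hx')] at h
        exact absurd (hg f hf x' hx' h).symm hxf'
    · rcases hx' with rfl | ⟨hxf', hx'⟩
      · rw [Function.update_self, Function.update_of_ne (hg' x hx)] at h
        exact absurd (hg x hx f hf h) hxf
      · rw [Function.update_of_ne (hg' x hx), Function.update_of_ne (hg' x' hx')] at h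
        exact hg x hx x' hx' h
  · intro x hx
    rw [Finset.mem_insert, Finset.mem_erase] at hx
    rcases hx with rfl | ⟨hxf, hx⟩
    · obtain ⟨w, hw, hfw⟩ := hg2 f hf
      exact ⟨w, by rw [Function.update_self]; exact hw, hty w hfw⟩
    · obtain ⟨w, hw, hxw⟩ := hg2 x hx
      exact ⟨w, by rw [Function.update_of_ne (hg' x hx)]; exact hw, hxw⟩

/-- clones have the same adjacency in a maximal presentation of the dual -/
lemma clone_adj {M : Matroid α} (E : Finset α) (hE : (E : Set α) = M.E) {k k' : ℕ}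
    {B : Fin k → Finset α} (hB : Pres M B) {A : Fin k' → Finset α} (hA : Pres (M✶) A)
    (hmax : ∀ y, ∀ f ∈ E, f ∉ A y → ∃ C : Finset α, M✶.IsCircuit (C : Set α) ∧ f ∈ C ∧
        Disjoint C (A y))
    {e f : α} (he : e ∈ E) (hf : f ∈ E) (hty : ∀ w, f ∈ B w → e ∈ B w) (y : Fin k')
    (hey : e ∈ A y) : f ∈ A y := by
  classical
  by_contra hfy
  obtain ⟨C, hC, hfC, hdis⟩ := hmax y f hf hfy
  have heC : e ∉ C := fun h => Finset.disjoint_left.1 hdis h hey
  have h1 : M✶.Indep ((C.erase f : Finset α) : Set α) := by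
    apply hC.ssubset_indep
    rw [Finset.coe_ssubset]
    exact Finset.erase_ssubset hfC
  have h2 : M✶.Indep ((insert e (C.erase f) : Finset α) : Set α) := by
    obtain ⟨g, hg, hg2⟩ := (pres_iff hA _).1 h1
    rw [pres_iff hA]
    have hne : ∀ x ∈ C.erase f, x ≠ e := fun x hx h => heC (h ▸ Finset.mem_of_mem_erase hx)
    have hgy : ∀ x ∈ C.erase f, g x ≠ some y := by
      intro x hx h
      obtain ⟨z, hz, hxz⟩ := hg2 x hx
      rw [h] at hz
      have : y = z := by simpa using hz
      subst this
      exact Finset.disjoint_left.1 hdis (Finset.mem_of_mem_erase hx) hxz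
    refine ⟨Function.update g e (some y), ?_, ?_⟩
    · intro x hx x' hx' h
      rw [Finset.mem_insert] at hx hx'
      rcases hx with rfl | hx
      · rcases hx' with rfl | hx'
        · rfl
        · rw [Function.update_self, Function.update_of_ne (hne x' hx')] at h
          exact absurd h.symm (hgy x' hx')
      · rcases hx' with rfl | hx'
        · rw [Function.update_self, Function.update_of_ne (hne x hx)] at h
          exact absurd h (hgy x hx)
        · rw [Function.update_of_ne (hne x hx), Function.update_of_ne (hne x' hx')] at h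
          exact hg x hx x' hx' h
    · intro x hx
      rw [Finset.mem_insert] at hx
      rcases hx with rfl | hx
      · exact ⟨y, by rw [Function.update_self], hey⟩
      · obtain ⟨z, hz, hxz⟩ := hg2 x hx
        exact ⟨z, by rw [Function.update_of_ne (hne x hx)]; exact hz, hxz⟩
  have hdep : ¬ M✶.Indep (C : Set α) := hC.dep.not_indep
  have hCE : (C : Set α) ⊆ M.E := hC.subset_ground
  obtain ⟨_, B₁, hB₁, hdisB⟩ := Matroid.dual_indep_iff_exists'.1 h2
  have hfinB : B₁.Finite := by
    apply Set.Finite.subset E.finite_toSet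
    rw [hE]; exact hB₁.subset_ground
  obtain ⟨B1, rfl⟩ : ∃ B1 : Finset α, (B1 : Set α) = B₁ := ⟨hfinB.toFinset, hfinB.coe_toFinset⟩
  rw [Finset.disjoint_coe] at hdisB
  have heB : e ∉ B1 := Finset.disjoint_left.1 hdisB (Finset.mem_insert_self _ _)
  have hfB : f ∈ B1 := by
    by_contra hfB
    apply hdep
    rw [Matroid.dual_indep_iff_exists']
    refine ⟨hCE, B1, hB₁, ?_⟩
    rw [Finset.disjoint_coe, Finset.disjoint_left]
    intro x hx hxB
    by_cases hxf : x = f
    · subst hxf; exact hfB hxB
    · exact Finset.disjoint_left.1 hdisB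
        (Finset.mem_insert_of_mem (Finset.mem_erase.2 ⟨hxf, hx⟩)) hxB
  have hB2 := indep_swap hB hfB heB hB₁.indep hty
  have hB2b : M.IsBase ((insert e (B1.erase f) : Finset α) : Set α) := by
    apply hB2.isBase_of_eRk_ge (Finset.finite_toSet _)
    rw [← hB₁.encard_eq_eRank, hB2.eRk_eq_encard, Set.encard_coe_eq_coe_finsetCard,
      Set.encard_coe_eq_coe_finsetCard, Finset.card_insert_of_notMem, Finset.card_erase_of_mem hfB]
    · have : 0 < B1.card := Finset.card_pos.2 ⟨f, hfB⟩
      have h3 : B1.card ≤ B1.card - 1 + 1 := by omega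
      exact_mod_cast h3
    · intro h; exact heB (Finset.mem_of_mem_erase h)
  apply hdep
  rw [Matroid.dual_indep_iff_exists']
  refine ⟨hCE, _, hB2b, ?_⟩
  rw [Finset.disjoint_coe, Finset.disjoint_left]
  intro x hx hxB
  rw [Finset.mem_insert, Finset.mem_erase] at hxB
  rcases hxB with rfl | ⟨hxf, hxB⟩
  · exact heC hx
  · exact Finset.disjoint_left.1 hdisB
      (Finset.mem_insert_of_mem (Finset.mem_erase.2 ⟨hxf, hx⟩)) hxB

/-- few types in a set of small rank -/
lemma type_bound {M : Matroid α} {k k' : ℕ} {B : Fin k → Finset α} (hB : Pres M B)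
    (A : Fin k' → Finset α) (E : Finset α)
    (hcl : ∀ e ∈ E, ∀ f ∈ E, ty B e = ty B f → ty A e = ty A f) (l : ℕ)
    (G : Finset α) (hG : G ⊆ E) (hr : rk M G ≤ l) : (G.image (ty A)).card ≤ 2 ^ l + l := by
  classical
  obtain ⟨S, hS, hk⟩ := konig_hard hB G
  have h1 : G.image (ty A) ⊆ (G \ S).image (ty A) ∪ S.image (ty A) := by
    rw [← Finset.image_union]
    apply Finset.image_subset_image
    rw [Finset.sdiff_union_of_subset hS]
  have h2 := Finset.card_le_card h1
  have h3 := Finset.card_union_le ((G \ S).image (ty A)) (S.image (ty A))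
  have h4 : ((G \ S).image (ty A)).card ≤ (G \ S).card := Finset.card_image_le
  have h5 : (S.image (ty A)).card ≤ (S.image (ty B)).card := by
    have hex : ∀ τ ∈ S.image (ty A), ∃ e ∈ S, ty A e = τ := fun τ hτ => by
      simpa using hτ
    rcases S.eq_empty_or_nonempty with rfl | ⟨x0, hx0⟩
    · simp
    have : Nonempty α := ⟨x0⟩
    choose! r hr1 hr2 using hex
    apply Finset.card_le_card_of_injOn (fun τ => ty B (r τ))
    · intro τ hτ
      exact Finset.mem_image_of_mem _ (hr1 τ hτ)
    · intro τ hτ τ' hτ' h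
      rw [Finset.mem_coe] at hτ hτ'
      have := hcl _ (hG (hS (hr1 τ hτ))) _ (hG (hS (hr1 τ' hτ'))) h
      rw [hr2 τ hτ, hr2 τ' hτ'] at this
      exact this
  have h6 : (S.image (ty B)).card ≤ 2 ^ (nb B S).card := by
    rw [← Finset.card_powerset]
    apply Finset.card_le_card
    intro τ hτ
    rw [Finset.mem_image] at hτ
    obtain ⟨e, he, rfl⟩ := hτ
    rw [Finset.mem_powerset]
    intro w hw
    rw [mem_ty] at hw
    exact mem_nb.2 ⟨e, he, hw⟩
  have h7 : 2 ^ (nb B S).card ≤ 2 ^ l := Nat.pow_le_pow_right (by norm_num) (by omega)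
  omega

lemma pres_of_transversal {M : Matroid α} (E : Finset α) (hE : (E : Set α) = M.E)
    (h : Transversal M) : ∃ (k : ℕ) (A : Fin k → Finset α), Pres M A ∧ ∀ y, A y ⊆ E := by
  classical
  obtain ⟨k, A, hAE, hA⟩ := h
  refine ⟨k, fun y => E.filter (fun e => e ∈ A y), ?_, fun y => Finset.filter_subset _ _⟩
  intro I
  rw [hA]
  constructor
  · rintro ⟨f, hf, hf2⟩
    refine ⟨fun x => f ⟨x.1, Finset.mem_coe.2 x.2⟩, ?_, ?_⟩
    · intro x x' h
      have := hf h
      simp only [Subtype.mk.injEq] at this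
      exact Subtype.ext this
    · intro x
      rw [Finset.mem_filter]
      have h1 := hf2 ⟨x.1, Finset.mem_coe.2 x.2⟩
      refine ⟨?_, h1⟩
      rw [← Finset.mem_coe, hE]
      exact hAE _ h1
  · rintro ⟨f, hf, hf2⟩
    refine ⟨fun x => f ⟨x.1, Finset.mem_coe.1 x.2⟩, ?_, ?_⟩
    · intro x x' h
      have := hf h
      simp only [Subtype.mk.injEq] at this
      exact Subtype.ext this
    · intro x
      exact (Finset.mem_filter.1 (hf2 ⟨x.1, Finset.mem_coe.1 x.2⟩)).2

end core

open Classical in
/-- Explicit form. -/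
theorem explicit (l : ℕ) (α : Type u) (M : Matroid α) (hfin : M.Finite) (h1 : Transversal M)
    (h2 : Transversal M✶) (U : Set α) (hU : U ⊆ M.E)
    (hc : M.eRk U + M.eRk (M.E \ U) ≤ M.eRank + l) :
    Finite (Quotient (traceSetoid M U)) ∧
      Nat.card (Quotient (traceSetoid M U)) ≤ (l + 1) ^ (2 ^ (2 ^ l + 2 * l)) + 1 := by
  have hEfin : M.E.Finite := M.ground_finite
  obtain ⟨E, hE⟩ : ∃ E : Finset α, (E : Set α) = M.E := ⟨hEfin.toFinset, hEfin.coe_toFinset⟩
  obtain ⟨k, B, hB, hBE⟩ := pres_of_transversal E hE h1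
  obtain ⟨k', A₀, hA₀, hA₀E⟩ := pres_of_transversal (M := M✶) E hE h2
  obtain ⟨A, hA, hAE, hmax⟩ := exists_max_pres (N := M✶) E hE hA₀ hA₀E
  obtain ⟨Uf, rfl⟩ : ∃ Uf : Finset α, (Uf : Set α) = U :=
    ⟨(hEfin.subset hU).toFinset, (hEfin.subset hU).coe_toFinset⟩
  have hUE : Uf ⊆ E := by rw [← Finset.coe_subset, hE]; exact hU
  have hUV : Uf ∪ (E \ Uf) = E := Finset.union_sdiff_of_subset hUE
  have hdisj : Disjoint Uf (E \ Uf) := Finset.disjoint_sdiff
  have hcoeV : ((E \ Uf : Finset α) : Set α) = M.E \ (Uf : Set α) := by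
    rw [Finset.coe_sdiff, hE]
  have hcl : ∀ e ∈ E, ∀ f ∈ E, ty B e = ty B f → ty A e = ty A f := by
    intro e he f hf h
    have h3 : ∀ w, e ∈ B w ↔ f ∈ B w := by
      intro w
      rw [← mem_ty, ← mem_ty, h]
    ext y
    rw [mem_ty, mem_ty]
    exact ⟨clone_adj E hE hB hA hmax he hf (fun w => (h3 w).2) y,
      clone_adj E hE hB hA hmax hf he (fun w => (h3 w).1) y⟩
  have hdual : ∀ X ⊆ E, rk M X + rk M✶ E = rk M✶ (E \ X) + X.card := by
    intro X hX
    have h3 := Matroid.eRk_dual_add_eRank (M✶) (X : Set α) (by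
      rw [Matroid.dual_ground, ← hE, Finset.coe_subset]; exact hX)
    rw [Matroid.dual_dual, Matroid.dual_ground, ← hE, ← Finset.coe_sdiff,
      Set.encard_coe_eq_coe_finsetCard, ← coe_rk, ← coe_rk] at h3
    have h4 : M✶.eRank = ((rk M✶ E : ℕ) : ℕ∞) := by
      rw [coe_rk, hE, ← Matroid.dual_ground, Matroid.eRk_ground]
    rw [h4] at h3
    exact_mod_cast h3
  have hconn : rk M Uf + rk M (E \ Uf) ≤ rk M E + l := by
    have h4 : M.eRank = ((rk M E : ℕ) : ℕ∞) := by
      rw [coe_rk, hE, Matroid.eRk_ground]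
    rw [← hcoeV, ← coe_rk, ← coe_rk, h4] at hc
    exact_mod_cast hc
  obtain ⟨ι, hι, F, hcard, hF⟩ := core_bound M M✶ E A hA hdual l (2 ^ l + l)
    (fun G hG hr => type_bound hB A E hcl l G hG hr) Uf (E \ Uf) hUV hdisj hconn
  have hpre : ∀ X : {X : Set α // X ⊆ (Uf : Set α)}, ∃ X' : {X : Finset α // X ⊆ Uf},
      (X'.1 : Set α) = X.1 := by
    intro X
    have hXf : X.1.Finite := Uf.finite_toSet.subset X.2
    refine ⟨⟨hXf.toFinset, ?_⟩, hXf.coe_toFinset⟩
    rw [← Finset.coe_subset, hXf.coe_toFinset]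
    exact X.2
  choose tf htf using hpre
  let F' : Quotient (traceSetoid M (Uf : Set α)) → ι := fun q => F (tf q.out)
  have hinj : Function.Injective F' := by
    intro q q' h
    have h3 := hF _ _ h
    have h4 : (traceSetoid M (Uf : Set α)).r q.out q'.out := by
      intro Z hZ
      have hZf : Z.Finite := hEfin.subset (hZ.trans Set.sdiff_subset)
      obtain ⟨Z', rfl⟩ : ∃ Z' : Finset α, (Z' : Set α) = Z := ⟨hZf.toFinset, hZf.coe_toFinset⟩
      have hZ' : Z' ⊆ E \ Uf := by
        rw [← Finset.coe_subset, hcoeV]; exact hZ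
      have h5 := h3 Z' hZ'
      rw [Finset.coe_union, Finset.coe_union, htf, htf] at h5
      exact h5
    rw [← Quotient.out_eq q, ← Quotient.out_eq q']
    exact Quotient.sound h4
  refine ⟨Finite.of_injective F' hinj, ?_⟩
  have h6 := Nat.card_le_card_of_injective F' hinj
  rw [Nat.card_eq_fintype_card (α := ι)] at h6
  have h7 : 2 ^ l + l + l = 2 ^ l + 2 * l := by ring
  rw [h7] at hcard
  exact h6.trans hcard

/-- The class of all (finite) matroids that are both transversal and cotransversal is strongly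
pigeonhole; explicitly, `(l + 1) ^ (2 ^ (2 ^ l + 2 * l)) + 1` classes always suffice. -/
theorem result :
    StronglyPigeonhole.{u} (fun _ M => Transversal M ∧ Transversal M✶) ∧
    ∀ (l : ℕ) (α : Type u) (M : Matroid α), M.Finite → Transversal M → Transversal M✶ →
      ∀ U : Set α, U ⊆ M.E → M.eRk U + M.eRk (M.E \ U) ≤ M.eRank + l →
        Nat.card (Quotient (traceSetoid M U)) ≤ (l + 1) ^ (2 ^ (2 ^ l + 2 * l)) + 1 := by
  refine ⟨fun l _ => ⟨(l + 1) ^ (2 ^ (2 ^ l + 2 * l)) + 1, by omega, ?_⟩, ?_⟩
  · intro α M hfin h U hU hc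
    exact explicit l α M hfin h.1 h.2 U hU hc
  · intro l α M hfin h1 h2 U hU hc
    exact (explicit l α M hfin h1 h2 U hU hc).2

end Pool.Agent.Results.MP_4792b2_co.Bicotransversal
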